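import Pool.Agent.H500.ME.Stm
import Pool.Agent.H499.CM.Unr
import Pool.Agent.H719.ME.TYU
import Pool.Graph.R_pool_sql_team_seeded_3997aac3.Q149.AR.SD2
import Pool.Graph.R_pool_sql_team_seeded_3997aac3.Q106.AR.NmA
import Pool.Graph.R_pool_sql_team_seeded_3997aac3.Q92.AR.Fin
import Pool.Graph.R_seed8.W401.Cheb.Frob

set_option autoImplicit false
set_option linter.unusedSectionVars false

/-!
# Project ME (helper500), PART B6: descent of algebraic characters up to roots of unity (by helper722)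
-/

namespace Pool.Agent.H722.ME.DSC1

open NumberField IsDedekindDomain Filter Topology Polynomial
open Pool.Agent.W401.Cheb (GK IsFrob IsInert dens)
open Pool.Agent.H500.HC (InRay QBar ZBar)
open Pool.Agent.H500.SV (Above Fld)
open Pool.Agent.H500.ED (FX S_FXF S_FXC S_FXJ S_TINV)
open Pool.Agent.H500.ME (typU IsAlg at1 IsAC HasWt S_INL S_TYU S_DSC1)
open Pool.Agent.Q92.AR
open Pool.Agent.Q5.BR (rdeg absNorm_rdeg mem_above)
open Pool.Agent.TeamU (act)

/-! ### Generalities -/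

/-- an element with a power in the image of an algebraically closed field is in the image -/
theorem exists_root {A B : Type} [Field A] [IsAlgClosed A] [Field B] (κ : A →+* B) {y : B} {f : ℕ}
    (hf : 0 < f) {a : A} (h : y ^ f = κ a) : ∃ z : A, κ z = y := by
  let _ := κ.toAlgebra
  have h1 : IsIntegral A y := by
    refine IsIntegral.of_pow hf ?_
    rw [h]
    exact isIntegral_algebraMap (R := A) (A := B) (x := a)
  have h2 := IsAlgClosed.degree_eq_one_of_irreducible A (minpoly.irreducible h1)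
  exact minpoly.mem_range_of_degree_eq_one A y h2

section
variable {K : Type} [Field K] [NumberField K]

/-- homomorphisms on the divisors prime to `N` are determined by the values at the places -/
theorem hom_ext {G : Type} [AddCommGroup G] {N : ℕ} (f g : Dv K →+ G)
    (h : ∀ w : HeightOneSpectrum (𝓞 K), (N : 𝓞 K) ∉ w.asIdeal →
      f (Finsupp.single w 1) = g (Finsupp.single w 1))
    {D : Dv K} (hD : D ∈ Pr K N) : f D = g D := by
  have h1 : D = D.sum Finsupp.single := (Finsupp.sum_single D).symm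
  rw [h1, map_finsuppSum, map_finsuppSum]
  refine Finsupp.sum_congr fun w hw => ?_
  have hw' : (N : 𝓞 K) ∉ w.asIdeal := fun hN => (Finsupp.mem_support_iff.1 hw) (hD w hN)
  have h2 : (Finsupp.single w (D w) : Dv K) = D w • Finsupp.single w 1 := by
    rw [Finsupp.smul_single, smul_eq_mul, mul_one]
  rw [h2, map_zsmul, map_zsmul, h w hw']

theorem prin_Pr {N : ℕ} {x : Kˣ} (hx : Cong N (x : K)) : prin x ∈ Pr K N := by
  intro v hv
  rw [Pool.Agent.Q149.AR.prin_eq_neg_log, val_eq_one hv (hx v hv)]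
  simp

theorem ray_dvd {N M : ℕ} (h : N ∣ M) {x : Kˣ} (hx : x ∈ Ray K M) : x ∈ Ray K N := by
  refine ⟨fun v hv => ?_, hx.2⟩
  obtain ⟨c, rfl⟩ := h
  have h1 : ((N * c : ℕ) : 𝓞 K) ∈ v.asIdeal := by
    rw [Nat.cast_mul]
    exact Ideal.mul_mem_right _ _ hv
  refine (hx.1 v h1).trans ?_
  rw [Nat.cast_mul, map_mul]
  refine mul_le_of_le_one_right' ?_
  have h2 := v.valuation_le_one (K := K) (c : 𝓞 K)
  exact_mod_cast h2

/-- `ξ` is the same at all Frobenius elements -/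
theorem frob_eq {G : Type} [CommGroup G] (ξ : GK K →* G) {v : HeightOneSpectrum (𝓞 K)}
    (hin : ∀ τ, IsInert v τ → ξ τ = 1) {σ σ' : GK K} (hσ : IsFrob v σ) (hσ' : IsFrob v σ') :
    ξ σ' = ξ σ := by
  obtain ⟨ρ, i, hi, hρ⟩ := (Pool.Agent.W401.Frob.main K).2.1 v σ σ' hσ hσ'
  rw [hρ, map_mul, map_mul, map_mul, hin i hi, mul_one, map_inv, mul_comm (ξ ρ), mul_assoc,
    mul_inv_cancel, mul_one]

end

section
variable {K L : Type} [Field K] [NumberField K] [Field L] [NumberField L] [Algebra K L]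

theorem above_nat {u : HeightOneSpectrum (𝓞 K)} {w : HeightOneSpectrum (𝓞 L)} (hw : Above w u)
    (n : ℕ) : (n : 𝓞 L) ∈ w.asIdeal ↔ (n : 𝓞 K) ∈ u.asIdeal := by
  rw [← show w.asIdeal.comap (algebraMap (𝓞 K) (𝓞 L)) = u.asIdeal from hw, Ideal.mem_comap,
    map_natCast]

theorem above_under (w : HeightOneSpectrum (𝓞 L)) : Above w (w.under (𝓞 K)) := rfl

theorem under_of_above {w : HeightOneSpectrum (𝓞 L)} {v : HeightOneSpectrum (𝓞 K)}
    (h : Above w v) : w.under (𝓞 K) = v := HeightOneSpectrum.ext h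

theorem up_ray {N : ℕ} {x : Kˣ} (hx : x ∈ Ray K N) : up K L x ∈ Ray L N :=
  ⟨Pool.Agent.Q106.AR.up_cong hx.1, fun φ => hx.2 (φ.comp (algebraMap K L))⟩

theorem nm_up (x : Kˣ) : nmD K L (prin (up K L x)) = Module.finrank K L • prin x := by
  rw [Pool.Agent.Q106.AR.nm_prin]
  have h1 : nu K L (up K L x) = x ^ Module.finrank K L := by
    apply Units.ext
    change Algebra.norm K (algebraMap K L (x : K)) = _
    rw [Algebra.norm_algebraMap, Units.val_pow_eq_pow_val]
  rw [h1]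
  exact map_nsmul (prinHom (F := K)) _ (Additive.ofMul x)

/-- the norm of a place is at least two -/
theorem two_le (v : HeightOneSpectrum (𝓞 K)) : 2 ≤ Ideal.absNorm v.asIdeal := by
  have h1 : Ideal.absNorm v.asIdeal ≠ 0 := Ideal.absNorm_eq_zero_iff.not.2 v.ne_bot
  have h2 : Ideal.absNorm v.asIdeal ≠ 1 := Ideal.absNorm_eq_one_iff.not.2 v.isPrime.ne_top
  omega

/-- two embeddings of a Galois extension with the same restriction differ by an automorphism
(from `Pool.Agent.H218.ED.TINV2`) -/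
theorem conj {M L : Type} [Field M] [Field L] [Algebra M L] [IsGalois M L]
    (σ₁ σ₂ : L →+* QBar) (h : σ₁.comp (algebraMap M L) = σ₂.comp (algebraMap M L)) :
    ∃ g : L ≃ₐ[M] L, σ₂ = σ₁.comp (g : L →+* L) := by
  let a1 : Algebra L QBar := σ₁.toAlgebra
  let a2 : Algebra M QBar := (σ₁.comp (algebraMap M L)).toAlgebra
  have : IsScalarTower M L QBar := IsScalarTower.of_algebraMap_eq fun x => rfl
  let τ : L →ₐ[M] QBar := { σ₂ with commutes' := fun x => (RingHom.congr_fun h x).symm }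
  refine ⟨Normal.algHomEquivAut M QBar L τ, ?_⟩
  have h1 := (Normal.algHomEquivAut M QBar L).symm_apply_apply τ
  ext x
  have h2 := DFunLike.congr_fun h1 x
  exact h2.symm

/-! ### The type -/

theorem ray_sE {N : ℕ} (g : L ≃ₐ[K] L) {x : Lˣ} (hx : x ∈ Ray L N) :
    Units.map (g : L →* L) x ∈ Ray L N := by
  refine ⟨fun v hv => ?_, fun φ => hx.2 (φ.comp (g : L →+* L))⟩
  have e1 : ∀ y : L, v.valuation L (g y) = (act g⁻¹ v).valuation L y := by
    intro y
    conv_lhs => rw [← Pool.Agent.Q149.AR.act_act_inv g v]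
    exact Pool.Agent.TeamU.val_act g _ y
  have h1 : (N : 𝓞 L) ∈ (act g⁻¹ v).asIdeal :=
    (above_nat (K := K) (above_under (act g⁻¹ v)) N).2 (by
      rw [Pool.Agent.Q149.AR.act_under]
      exact (above_nat (above_under v) N).1 hv)
  have h2 := hx.1 _ h1
  have e2 : ((Units.map (g : L →* L) x : Lˣ) : L) - 1 = g ((x : L) - 1) := by
    rw [map_sub, map_one]
    rfl
  have e3 : ((N : ℕ) : L) = g (N : L) := (map_natCast g N).symm
  rw [e2, e1]
  conv_rhs => rw [e3, e1]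
  exact h2

theorem typU_g (t : (L →+* QBar) → ℤ) (g : L ≃ₐ[K] L) (x : Lˣ) :
    typU t (Units.map (g : L →* L) x) = typU (fun σ => t (σ.comp (g.symm : L →+* L))) x := by
  unfold typU
  let e : (L →+* QBar) ≃ (L →+* QBar) :=
    { toFun := fun σ => σ.comp (g : L →+* L)
      invFun := fun σ => σ.comp (g.symm : L →+* L)
      left_inv := fun σ => by
        ext y
        simp
      right_inv := fun σ => by
        ext y
        simp }
  refine Fintype.prod_equiv e _ _ fun σ => ?_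
  have h1 : e.symm (e σ) = σ := e.symm_apply_apply σ
  have h2 : (fun σ => t (σ.comp (g.symm : L →+* L))) (e σ) = t σ := congrArg t h1
  rw [h2]
  rfl

theorem typU_sub (t₁ t₂ : (L →+* QBar) → ℤ) (X : Lˣ) :
    typU (fun σ => t₁ σ - t₂ σ) X = typU t₁ X / typU t₂ X := by
  unfold typU
  rw [← Finset.prod_div_distrib]
  exact Finset.prod_congr rfl fun σ _ => zpow_sub _ _ _

/-- the type of a character with values invariant under the Galois group -/
theorem exists_type (hT : S_TYU) [IsGalois K L] {M : ℕ} (hM : 0 < M) {t : (L →+* QBar) → ℤ}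
    {φ : Dv L →+ Additive QBarˣ} (hφ : IsAlg M t φ)
    (hinv : ∀ (g : L ≃ₐ[K] L) (w : HeightOneSpectrum (𝓞 L)), (M : 𝓞 L) ∉ w.asIdeal →
      φ (Finsupp.single (act g w) 1) = φ (Finsupp.single w 1)) :
    ∃ t' : (K →+* QBar) → ℤ, ∀ σ : L →+* QBar, t σ = t' (σ.comp (algebraMap K L)) := by
  classical
  have key : ∀ (g : L ≃ₐ[K] L) (σ : L →+* QBar), t (σ.comp (g.symm : L →+* L)) = t σ := by
    intro g σ
    have h1 : IsAlg M (fun σ => t (σ.comp (g.symm : L →+* L)) - t σ)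
        (0 : Dv L →+ Additive QBarˣ) := by
      intro x hx
      have h2 : φ (prin (Units.map (g : L →* L) x)) = φ (prin x) := by
        have h3 : prin (Units.map (g : L →* L) x) = sD g (prin x) :=
          Pool.Agent.Q149.AR.prin_sE g (Additive.ofMul x)
        rw [h3]
        refine hom_ext (N := M) (φ.comp (sD g)) φ (fun w hw => ?_) (prin_Pr hx.1)
        have h4 : sD g (Finsupp.single w 1) = Finsupp.single (act g w) 1 :=
          Finsupp.mapDomain_single
        change φ (sD g (Finsupp.single w 1)) = _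
        rw [h4]
        exact hinv g w hw
      have h5 := hφ _ (ray_sE g hx)
      rw [h2, hφ x hx, typU_g] at h5
      have h6 : typU t x = typU (fun σ => t (σ.comp (g.symm : L →+* L))) x := h5
      rw [typU_sub, ← h6, div_self']
      rfl
    have h4 := hT L M _ 0 1 0 hM h1 (Eventually.of_forall fun w => by
      simp [at1]) σ
    rwa [one_mul, sub_eq_zero] at h4
  refine ⟨fun s => if h : ∃ σ : L →+* QBar, σ.comp (algebraMap K L) = s then t h.choose else 0,
    fun σ => ?_⟩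
  have h : ∃ σ' : L →+* QBar, σ'.comp (algebraMap K L) = σ.comp (algebraMap K L) := ⟨σ, rfl⟩
  simp only [dif_pos h]
  have h6 : ∀ σ' : L →+* QBar, σ'.comp (algebraMap K L) = σ.comp (algebraMap K L) → t σ = t σ' := by
    intro σ' hσ'
    obtain ⟨g, hg⟩ := conj σ' σ hσ'
    have h5 := key g σ
    have h7 : σ.comp (g.symm : L →+* L) = σ' := by
      rw [hg]
      ext x
      simp
    rw [h7] at h5
    exact h5.symm
  exact h6 _ h.choose_spec

open Classical in
theorem card_fiber (τ : K →+* QBar) :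
    (Finset.univ.filter fun σ : L →+* QBar => σ.comp (algebraMap K L) = τ).card =
      Module.finrank K L := by
  let _ : Algebra K QBar := τ.toAlgebra
  rw [← AlgHom.card K L QBar, ← Fintype.card_coe]
  refine Fintype.card_congr ⟨fun σ => ⟨σ.1, fun x => ?_⟩, fun f => ⟨(f : L →+* QBar), ?_⟩,
    fun σ => ?_, fun f => ?_⟩
  · exact RingHom.congr_fun (Finset.mem_filter.1 σ.2).2 x
  · rw [Finset.mem_filter]
    exact ⟨Finset.mem_univ _, RingHom.ext fun x => f.commutes x⟩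
  · rfl
  · rfl

theorem typU_up (t : (L →+* QBar) → ℤ) (t' : (K →+* QBar) → ℤ)
    (ht : ∀ σ : L →+* QBar, t σ = t' (σ.comp (algebraMap K L))) (x : Kˣ) :
    typU t (up K L x) = typU t' x ^ Module.finrank K L := by
  classical
  unfold typU
  have h1 : ∀ σ : L →+* QBar, Units.map (σ : L →* QBar) (up K L x) ^ t σ =
      (fun τ : K →+* QBar => Units.map (τ : K →* QBar) x ^ t' τ) (σ.comp (algebraMap K L)) := by
    intro σ
    rw [ht σ]
    rfl
  rw [Finset.prod_congr rfl fun σ _ => h1 σ,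
    Finset.prod_comp (fun τ : K →+* QBar => Units.map (τ : K →* QBar) x ^ t' τ)
      (fun σ : L →+* QBar => σ.comp (algebraMap K L))]
  have h2 : Finset.univ.image (fun σ : L →+* QBar => σ.comp (algebraMap K L)) = Finset.univ := by
    rw [Finset.eq_univ_iff_forall]
    intro τ
    have h3 : 0 < (Finset.univ.filter fun σ : L →+* QBar =>
        σ.comp (algebraMap K L) = τ).card := by
      rw [card_fiber]
      exact Module.finrank_pos
    obtain ⟨σ, hσ⟩ := Finset.card_pos.1 h3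
    exact Finset.mem_image.2 ⟨σ, Finset.mem_univ _, (Finset.mem_filter.1 hσ).2⟩
  rw [h2, ← Finset.prod_pow]
  refine Finset.prod_congr rfl fun τ _ => ?_
  rw [card_fiber]

end

/-! ### The descent -/

theorem main0 (hT : S_TYU) : S_FXF → S_FXC → S_INL → S_DSC1 := by
  classical
  intro hFXF hFXC hINL K _ _ U L _ _ _ ι e hUn hUo hFX ℓ _ κ ξ M t φ _ hAC
  have hGal : IsGalois K L := (hFXF K U L ι e hUn hUo hFX).galois
  obtain ⟨-, -, -, -, -, hfr, -⟩ := hFXC K U L ι e hUo hFX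
  -- the modulus
  have hfin : {v : HeightOneSpectrum (𝓞 K) | ∃ σ, IsInert v σ ∧ σ ∉ U}.Finite :=
    Pool.Agent.H499.CM.finite_ram U hUo
  obtain ⟨N0, hN0p, hN0m⟩ : ∃ N0 : ℕ, 0 < N0 ∧ ∀ v : HeightOneSpectrum (𝓞 K),
      (N0 : 𝓞 K) ∉ v.asIdeal → ∀ τ, IsInert v τ → τ ∈ U := by
    refine ⟨∏ v ∈ hfin.toFinset, Ideal.absNorm v.asIdeal,
      Finset.prod_pos fun v _ => lt_of_lt_of_le two_pos (two_le v), ?_⟩
    intro v hv τ hτ
    by_contra hτU
    apply hv
    have h1 : v ∈ hfin.toFinset := hfin.mem_toFinset.2 ⟨τ, hτ, hτU⟩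
    obtain ⟨c, hc⟩ := Finset.dvd_prod_of_mem
      (fun v : HeightOneSpectrum (𝓞 K) => Ideal.absNorm v.asIdeal) h1
    rw [hc, Nat.cast_mul]
    exact Ideal.mul_mem_right _ _ (Ideal.absNorm_mem _)
  have hMp : 0 < M * N0 := Nat.mul_pos hAC.pos hN0p
  have hM1 : ∀ v : HeightOneSpectrum (𝓞 K), ((M * N0 : ℕ) : 𝓞 K) ∉ v.asIdeal →
      (M : 𝓞 K) ∉ v.asIdeal ∧ (N0 : 𝓞 K) ∉ v.asIdeal := by
    intro v hv
    rw [Nat.cast_mul] at hv
    exact ⟨fun h => hv (Ideal.mul_mem_right _ _ h), fun h => hv (Ideal.mul_mem_left _ _ h)⟩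
  -- inertia
  have hin : ∀ v : HeightOneSpectrum (𝓞 K), ((M * N0 : ℕ) : 𝓞 K) ∉ v.asIdeal →
      ∀ τ, IsInert v τ → ξ τ = 1 := by
    intro v hv τ hτ
    obtain ⟨w, s, hw, hs, hsτ⟩ := hINL K U L ι e hUo hFX v τ hτ (hN0m v (hM1 v hv).2 τ hτ)
    have h1 := hAC.inert w (fun h => (hM1 v hv).1 ((above_nat hw M).1 h)) s hs
    rw [← hsτ]
    exact h1
  -- the value at a place above
  have hup : ∀ (w : HeightOneSpectrum (𝓞 L)) (v : HeightOneSpectrum (𝓞 K)), Above w v →
      ((M * N0 : ℕ) : 𝓞 K) ∉ v.asIdeal → ∃ (f : ℕ) (σ : GK K), 0 < f ∧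
      Ideal.absNorm w.asIdeal = Ideal.absNorm v.asIdeal ^ f ∧ IsFrob v σ ∧
      ((ξ σ : (PadicAlgCl ℓ)ˣ) : PadicAlgCl ℓ) ^ f = κ (at1 φ w) := by
    intro w v hwv hv
    obtain ⟨f, hf0, hfN, hf⟩ := hfr v w hwv
    obtain ⟨s, hs⟩ := (Pool.Agent.W401.Frob.main L).1 w
    obtain ⟨σ, τ, hσ, hτ, hst⟩ := hf s hs
    have h1 := hAC.frob w (fun h => (hM1 v hv).1 ((above_nat hwv M).1 h)) s hs
    refine ⟨f, σ, hf0, hfN, hσ, ?_⟩
    rw [← h1, MonoidHom.comp_apply, hst, map_mul, map_pow, hin v hv τ hτ, mul_one,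
      Units.val_pow_eq_pow_val]
  have hz : ∀ v : HeightOneSpectrum (𝓞 K), ((M * N0 : ℕ) : 𝓞 K) ∉ v.asIdeal → ∃ z : QBarˣ,
      ∀ s, IsFrob v s → (ξ s : PadicAlgCl ℓ) = κ z := by
    intro v hv
    obtain ⟨w, hw⟩ := Pool.Agent.Q149.AR.above_nonempty (E := L) v
    have hwv : Above w v := by
      rw [← hw]
      exact above_under w
    obtain ⟨f, σ, hf0, -, hσ, h2⟩ := hup w v hwv hv
    obtain ⟨z, hz⟩ := exists_root κ hf0 h2
    have hz0 : z ≠ 0 := by
      rintro rfl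
      rw [map_zero] at hz
      exact (ξ σ).ne_zero hz.symm
    refine ⟨Units.mk0 z hz0, fun s' hs' => ?_⟩
    rw [frob_eq ξ (hin v hv) hσ hs', Units.val_mk0, hz]
  choose z0 hz0 using hz
  obtain ⟨z, hzf⟩ : ∃ z : HeightOneSpectrum (𝓞 K) → QBarˣ, ∀ v : HeightOneSpectrum (𝓞 K),
      ((M * N0 : ℕ) : 𝓞 K) ∉ v.asIdeal → ∀ s, IsFrob v s → (ξ s : PadicAlgCl ℓ) = κ (z v) := by
    refine ⟨fun v => if h : ((M * N0 : ℕ) : 𝓞 K) ∉ v.asIdeal then z0 v h else 1,
      fun v hv s hs => ?_⟩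
    beta_reduce
    rw [dif_pos hv]
    exact hz0 v hv s hs
  obtain ⟨φ', hφ'1⟩ : ∃ φ' : Dv K →+ Additive QBarˣ, ∀ (v : HeightOneSpectrum (𝓞 K)) (k : ℤ),
      φ' (Finsupp.single v k) = k • Additive.ofMul (z v) := by
    refine ⟨Finsupp.liftAddHom fun v => zmultiplesHom (Additive QBarˣ) (Additive.ofMul (z v)),
      fun v k => ?_⟩
    rw [Finsupp.liftAddHom_apply_single]
    rfl
  have hat : ∀ v, at1 φ' v = z v := by
    intro v
    unfold at1
    rw [hφ'1, one_smul]
    rfl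
  have hroot : ∀ (w : HeightOneSpectrum (𝓞 L)) (v : HeightOneSpectrum (𝓞 K)), Above w v →
      ((M * N0 : ℕ) : 𝓞 K) ∉ v.asIdeal → ∃ f : ℕ, 0 < f ∧
      Ideal.absNorm w.asIdeal = Ideal.absNorm v.asIdeal ^ f ∧ at1 φ w = (z v : QBar) ^ f := by
    intro w v hwv hv
    obtain ⟨f, σ, hf0, hfN, hσ, h2⟩ := hup w v hwv hv
    refine ⟨f, hf0, hfN, κ.injective ?_⟩
    rw [← h2, hzf v hv σ hσ, map_pow]
  -- comparison
  have hcmp : ∀ w : HeightOneSpectrum (𝓞 L), ((M * N0 : ℕ) : 𝓞 L) ∉ w.asIdeal →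
      φ (Finsupp.single w 1) = φ' (nmD K L (Finsupp.single w 1)) := by
    intro w hw
    have hwv : Above w (w.under (𝓞 K)) := above_under w
    have hv : ((M * N0 : ℕ) : 𝓞 K) ∉ (w.under (𝓞 K)).asIdeal :=
      fun h => hw ((above_nat hwv (M * N0)).2 h)
    obtain ⟨f, hf0, hfN, h3⟩ := hroot w _ hwv hv
    have h4 : f = rdeg K w := by
      have h5 := absNorm_rdeg (K := K) w
      rw [hfN] at h5
      exact Nat.pow_right_injective (two_le (w.under (𝓞 K))) h5
    rw [nmD_single, mul_one, hφ'1, natCast_zsmul, ← h4]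
    apply Additive.toMul.injective
    apply Units.ext
    exact h3
  have hcmp' : ∀ D ∈ Pr L (M * N0), φ D = φ' (nmD K L D) := fun D hD =>
    hom_ext φ (φ'.comp (nmD K L)) hcmp hD
  have hAlg : IsAlg (M * N0) t φ := fun x hx => hAC.alg x (ray_dvd (Dvd.intro _ rfl) hx)
  obtain ⟨t', ht'⟩ := exists_type (K := K) hT hMp hAlg (fun g w hw => by
    have hgw : ((M * N0 : ℕ) : 𝓞 L) ∉ (act g w).asIdeal := by
      intro h
      apply hw
      have h1 := (above_nat (K := K) (above_under (act g w)) (M * N0)).1 h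
      rw [Pool.Agent.Q149.AR.act_under] at h1
      exact (above_nat (above_under w) (M * N0)).2 h1
    rw [hcmp _ hgw, hcmp _ hw, nmD_single, nmD_single, Pool.Agent.Q149.AR.act_under,
      Pool.Agent.Q149.AR.rdeg_act])
  refine ⟨M * N0, Module.finrank K L, t', φ', hMp, Module.finrank_pos, ?_, ?_, ?_⟩
  · intro x hx
    have h1 := hAlg _ (up_ray (L := L) hx)
    rw [hcmp' _ (prin_Pr (up_ray (L := L) hx).1), nm_up, map_nsmul, typU_up t t' ht'] at h1
    exact h1
  · intro v hv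
    refine ⟨hin v hv, fun s hs => ?_⟩
    rw [hat]
    exact hzf v hv s hs
  · intro m hm τ
    have h1 : {w : HeightOneSpectrum (𝓞 L) |
        ¬ ‖τ (at1 φ w)‖ ^ 2 = (Ideal.absNorm w.asIdeal : ℝ) ^ m}.Finite := hm τ
    have h2 : {v : HeightOneSpectrum (𝓞 K) | ((M * N0 : ℕ) : 𝓞 K) ∈ v.asIdeal}.Finite :=
      mem_finite hMp.ne'
    refine ((h1.image fun w => w.under (𝓞 K)).union h2).subset fun v hv => ?_
    by_contra hcon
    rw [Set.mem_union, not_or] at hcon
    obtain ⟨hc1, hc2⟩ := hcon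
    apply hv
    obtain ⟨w, hw⟩ := Pool.Agent.Q149.AR.above_nonempty (E := L) v
    have hwv : Above w v := by
      rw [← hw]
      exact above_under w
    obtain ⟨f, hf0, hfN, h3⟩ := hroot w v hwv hc2
    have h4 : ‖τ (at1 φ w)‖ ^ 2 = (Ideal.absNorm w.asIdeal : ℝ) ^ m := by
      by_contra h
      exact hc1 ⟨w, h, hw⟩
    rw [h3, hfN, map_pow, norm_pow, Nat.cast_pow, ← pow_mul, mul_comm f 2, pow_mul] at h4
    change ‖τ (at1 φ' v)‖ ^ 2 = (Ideal.absNorm v.asIdeal : ℝ) ^ m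
    rw [hat]
    have h5 : (((Ideal.absNorm v.asIdeal : ℝ)) ^ f) ^ m = ((Ideal.absNorm v.asIdeal : ℝ) ^ m) ^ f := by
      rw [← zpow_natCast, ← zpow_natCast, ← zpow_mul, ← zpow_mul, mul_comm]
    rw [h5] at h4
    exact (pow_left_inj₀ (sq_nonneg _) (zpow_nonneg (Nat.cast_nonneg _) _) hf0.ne').1 h4

theorem main : S_FXF → S_FXC → S_FXJ → S_TINV → S_INL → S_DSC1 :=
  fun h1 h2 _ _ h5 => main0 Pool.Agent.H719.ME.TYU.main h1 h2 h5

end Pool.Agent.H722.ME.DSC1
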